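import Pool.Agent.helper74.VQ.SpecA
import Pool.Agent.helper62.RS.GLC
import Pool.Agent.helper92.RS.GMG
import Pool.Agent.helper83.RS.GLI
import Pool.Agent.helper9.RS.GRI
import Pool.Agent.helper62.QU.All

/-!
# Row vq:VEL (MP_07c750_an): energy localisation of the packet coefficients
-/

set_option autoImplicit false

open scoped MatrixGroups ContDiff Topology UpperHalfPlane ComplexConjugate ENNReal
open UpperHalfPlane MeasureTheory Filter Set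

namespace Pool.Agent.VQ

open Pool.Agent.RS

noncomputable section

/-- a retraction onto the closed unit disc -/
def VEL_r (v : ℂ) : ℂ := (max 1 ‖v‖)⁻¹ • v

theorem VEL_r_cont : Continuous VEL_r := by
  unfold VEL_r
  have h : Continuous (fun v : ℂ => max (1 : ℝ) ‖v‖) := continuous_const.max continuous_norm
  exact (h.inv₀ fun v => (lt_of_lt_of_le one_pos (le_max_left _ _)).ne').smul continuous_id

theorem VEL_r_le (v : ℂ) : ‖VEL_r v‖ ≤ 1 := by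
  unfold VEL_r
  have h : (0 : ℝ) < max 1 ‖v‖ := lt_of_lt_of_le one_pos (le_max_left _ _)
  rw [norm_smul, norm_inv, Real.norm_of_nonneg h.le, inv_mul_le_iff₀ h, mul_one]
  exact le_max_right _ _

theorem VEL_r_eq {v : ℂ} (h : ‖v‖ ≤ 1) : VEL_r v = v := by
  unfold VEL_r
  rw [max_eq_left h, inv_one, one_smul]

theorem VEL_cc (hVCD : VCD_stmt) : Continuous (fun x : SL(2, ℝ) × ℂ => (x.1 • cdi (VEL_r x.2) : ℍ)) := by
  obtain ⟨-, -, -, -, -, -, -, -, h9, -⟩ := hVCD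
  have h1 : ContinuousOn cdi (Metric.ball (0 : ℂ) 2) := by
    have := h9 1
    simpa only [one_smul] using this
  have h2 : Continuous (fun v : ℂ => cdi (VEL_r v)) :=
    h1.comp_continuous VEL_r_cont fun v => by
      rw [mem_ball_zero_iff]
      linarith [VEL_r_le v]
  exact continuous_fst.smul (h2.comp continuous_snd)

theorem VEL_dc (hVCD : VCD_stmt) {φ : ℍ → ℂ} (hφ : QU.CD 2 φ) :
    Continuous (fun x : SL(2, ℝ) × ℂ => fderiv ℝ (fun w : ℂ => φ (x.1 • cdi w)) (VEL_r x.2)) := by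
  obtain ⟨-, h2, -⟩ := hVCD
  let N : ((Fin 2 → Fin 2 → ℝ) × ℂ) → ℂ → ℂ := fun x w =>
    (((x.1 0 0 : ℝ) : ℂ) * (Complex.I * (2 + w) / (2 - w)) + ((x.1 0 1 : ℝ) : ℂ)) /
      (((x.1 1 0 : ℝ) : ℂ) * (Complex.I * (2 + w) / (2 - w)) + ((x.1 1 1 : ℝ) : ℂ))
  let f : ((Fin 2 → Fin 2 → ℝ) × ℂ) → ℂ → ℂ := fun x w => QU.onC φ (N x w)
  have hN : ∀ (g : SL(2, ℝ)) (v w : ℂ), ‖w‖ < 2 → N (fun i j => g.1 i j, v) w = ((g • cdi w : ℍ) : ℂ) := by
    intro g v w hw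
    rw [UpperHalfPlane.coe_specialLinearGroup_apply, (h2 w hw).2]
    rfl
  have hf : ∀ (g : SL(2, ℝ)) (v w : ℂ), ‖w‖ < 2 → f (fun i j => g.1 i j, v) w = φ (g • cdi w) := by
    intro g v w hw
    show φ (ofComplex (N (fun i j => g.1 i j, v) w)) = _
    rw [hN g v w hw, ofComplex_apply]
  have hd : ∀ (g : SL(2, ℝ)) (v : ℂ), ‖v‖ < 2 → fderiv ℝ (f (fun i j => g.1 i j, v)) v = fderiv ℝ (fun w : ℂ => φ (g • cdi w)) v := by
    intro g v hv
    refine Filter.EventuallyEq.fderiv_eq ?_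
    have : Metric.ball (0 : ℂ) 2 ∈ 𝓝 v := Metric.isOpen_ball.mem_nhds (by rwa [mem_ball_zero_iff])
    filter_upwards [this] with w hw
    exact hf g v w (by rwa [mem_ball_zero_iff] at hw)
  rw [continuous_iff_continuousAt]
  rintro ⟨g, v0⟩
  have hv1 : ‖VEL_r v0‖ < 2 := lt_of_le_of_lt (VEL_r_le v0) one_lt_two
  have hne : (2 : ℂ) - VEL_r v0 ≠ 0 := by
    intro h
    have h3 : VEL_r v0 = 2 := (sub_eq_zero.mp h).symm
    rw [h3] at hv1
    norm_num at hv1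
  have hden : ((g.1 1 0 : ℝ) : ℂ) * (Complex.I * (2 + VEL_r v0) / (2 - VEL_r v0)) + ((g.1 1 1 : ℝ) : ℂ) ≠ 0 := by
    rw [← (h2 _ hv1).2]
    exact denom_ne_zero g (cdi (VEL_r v0))
  have c1 : ContDiffAt ℝ 2 (Function.uncurry N) ((fun i j => g.1 i j, VEL_r v0), VEL_r v0) := by
    have hw : ContDiffAt ℝ 2 (fun x : ((Fin 2 → Fin 2 → ℝ) × ℂ) × ℂ => Complex.I * (2 + x.2) / (2 - x.2)) ((fun i j => g.1 i j, VEL_r v0), VEL_r v0) := by
      have a1 : ContDiffAt ℝ 2 (fun x : ((Fin 2 → Fin 2 → ℝ) × ℂ) × ℂ => Complex.I * (2 + x.2)) ((fun i j => g.1 i j, VEL_r v0), VEL_r v0) :=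
        contDiffAt_const.mul (contDiffAt_const.add contDiffAt_snd)
      have a2 : ContDiffAt ℝ 2 (fun x : ((Fin 2 → Fin 2 → ℝ) × ℂ) × ℂ => (2 : ℂ) - x.2) ((fun i j => g.1 i j, VEL_r v0), VEL_r v0) :=
        contDiffAt_const.sub contDiffAt_snd
      exact (a1.mul (a2.inv hne)).congr_of_eventuallyEq (Filter.Eventually.of_forall fun x => div_eq_mul_inv _ _)
    have he : ∀ i j : Fin 2, ContDiffAt ℝ 2 (fun x : ((Fin 2 → Fin 2 → ℝ) × ℂ) × ℂ => ((x.1.1 i j : ℝ) : ℂ)) ((fun i j => g.1 i j, VEL_r v0), VEL_r v0) := by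
      intro i j
      refine Complex.ofRealCLM.contDiff.contDiffAt.comp _ ?_
      have : ContDiff ℝ 2 (fun A : Fin 2 → Fin 2 → ℝ => A i j) := contDiff_apply_apply ℝ ℝ i j
      exact (this.comp (contDiff_fst.comp contDiff_fst)).contDiffAt
    have a3 := (((he 0 0).mul hw).add (he 0 1)).mul ((((he 1 0).mul hw).add (he 1 1)).inv hden)
    refine a3.congr_of_eventuallyEq (Filter.Eventually.of_forall fun x => ?_)
    exact div_eq_mul_inv _ _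
  have c2 : ContDiffAt ℝ 2 (Function.uncurry f) ((fun i j => g.1 i j, VEL_r v0), VEL_r v0) := by
    refine ContDiffAt.comp (g := QU.onC φ) (f := Function.uncurry N) _ ?_ c1
    refine hφ.contDiffAt ?_
    have hopen : IsOpen {w : ℂ | 0 < w.im} := isOpen_lt continuous_const Complex.continuous_im
    refine hopen.mem_nhds ?_
    show 0 < (N (fun i j => g.1 i j, VEL_r v0) (VEL_r v0)).im
    rw [hN g _ _ hv1]
    exact (g • cdi (VEL_r v0)).im_pos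
  have c3 : ContDiffAt ℝ 1 (fun x : (Fin 2 → Fin 2 → ℝ) × ℂ => fderiv ℝ (f x) x.2) (fun i j => g.1 i j, VEL_r v0) :=
    ContDiffAt.fderiv (n := 2) c2 contDiffAt_snd (by norm_num)
  have c4 := c3.continuousAt
  have c5 : ContinuousAt (fun x : SL(2, ℝ) × ℂ => ((fun i j => x.1.1 i j, VEL_r x.2) : (Fin 2 → Fin 2 → ℝ) × ℂ)) (g, v0) := by
    refine Continuous.continuousAt (Continuous.prodMk ?_ (VEL_r_cont.comp continuous_snd))
    exact continuous_pi fun i => continuous_pi fun j =>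
      (continuous_apply_apply i j).comp (continuous_subtype_val.comp continuous_fst)
  have c6 := ContinuousAt.comp (f := fun x : SL(2, ℝ) × ℂ => ((fun i j => x.1.1 i j, VEL_r x.2) : (Fin 2 → Fin 2 → ℝ) × ℂ)) (x := (g, v0)) c4 c5
  refine c6.congr (Filter.Eventually.of_forall fun x => ?_)
  exact hd x.1 _ (lt_of_le_of_lt (VEL_r_le x.2) one_lt_two)

theorem VEL_J {T : SL(2, ℝ) × ℂ → ℝ} (hT : Continuous T) (s : ℝ) :
    Continuous (fun g : SL(2, ℝ) => ∫ v in Metric.closedBall (0 : ℂ) s, T (g, v)) := by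
  obtain ⟨hlc, hsc, -⟩ := GLC
  have := hlc
  have := hsc
  exact continuous_parametric_integral_of_continuous (f := fun g v => T (g, v)) hT (isCompact_closedBall 0 s)

theorem VEL_int {F : Set ℍ} (hF : MeasurableSet (dG F)) {J : SL(2, ℝ) → ℝ} (hc : Continuous J) {b : ℝ}
    (hb : ∀ g : SL(2, ℝ), (g • I : ℍ) ∈ F → J g ≠ 0 → dist (g • I : ℍ) I ≤ b) : IntegrableOn J (dG F) mG := by
  have hGMG : GMG_stmt := GMG GLC
  obtain ⟨hlc, hsc, hcpt, -⟩ := GLC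
  have := hlc
  have := hsc
  obtain ⟨hdG, hK, hsf, -, -⟩ := hGMG
  have := hsf
  have : IsFiniteMeasureOnCompacts mG := ⟨fun K hK' => hK K hK'⟩
  have h1 : IntegrableOn J (dG (Metric.closedBall I b)) mG :=
    hc.continuousOn.integrableOn_compact (hcpt _ (isCompact_closedBall I b))
  refine h1.of_forall_sdiff_eq_zero hF ?_
  rintro g ⟨hg1, hg2⟩
  by_contra h
  exact hg2 (hb g hg1 h)

/-- averaging over the rotations -/
theorem VEL_avg {F : Set ℍ} (hF : MeasurableSet (dG F)) {K H : SL(2, ℝ) → ENNReal} (hK : Measurable K)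
    (hle : ∀ g : SL(2, ℝ), ∫⁻ θ in Ioc 0 (2 * Real.pi), K (g * kM θ) ≤ H g) :
    ENNReal.ofReal (2 * Real.pi) * ∫⁻ g in dG F, K g ∂mG ≤ ∫⁻ g in dG F, H g ∂mG := by
  have hGMG : GMG_stmt := GMG GLC
  have hGLI : GLI_stmt := GLI GLC hGMG
  have hGRI : GRI_stmt := GRI GLC hGMG hGLI
  obtain ⟨-, hsc, -, -, -, -, hk, -, -, -, -, -, -, -, -, hkI, -⟩ := GLC
  have := hsc
  have hsf := hGMG.2.2.1
  have := hsf
  have hcm : Measurable (fun x : SL(2, ℝ) × ℝ => x.1 * kM x.2) :=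
    (continuous_fst.mul (hk.comp continuous_snd)).measurable
  have h1 : ∀ θ : ℝ, ∫⁻ g in dG F, K (g * kM θ) ∂mG = ∫⁻ g in dG F, K g ∂mG := by
    intro θ
    rw [← lintegral_indicator hF, ← lintegral_indicator hF]
    have hm : Measurable (fun g : SL(2, ℝ) => g * kM θ) := (continuous_id.mul continuous_const).measurable
    have h2 : ∫⁻ g, (dG F).indicator K (g * kM θ) ∂mG = ∫⁻ g, (dG F).indicator K g ∂mG := by
      rw [← lintegral_map (hK.indicator hF) hm, hGRI]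
    rw [← h2]
    refine lintegral_congr fun g => ?_
    have h3 : ((g * kM θ) • I : ℍ) = g • I := by rw [mul_smul, hkI]
    by_cases hg : g ∈ dG F
    · have hg' : g * kM θ ∈ dG F := by
        show ((g * kM θ) • I : ℍ) ∈ F
        rw [h3]
        exact hg
      rw [indicator_of_mem hg, indicator_of_mem hg']
    · have hg' : g * kM θ ∉ dG F := by
        intro hc
        apply hg
        have hc' : ((g * kM θ) • I : ℍ) ∈ F := hc
        rw [h3] at hc'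
        exact hc'
      rw [indicator_of_notMem hg, indicator_of_notMem hg']
  calc ENNReal.ofReal (2 * Real.pi) * ∫⁻ g in dG F, K g ∂mG
      = ∫⁻ θ in Ioc 0 (2 * Real.pi), ∫⁻ g in dG F, K (g * kM θ) ∂mG := by
        simp_rw [h1]
        rw [lintegral_const, Measure.restrict_apply MeasurableSet.univ, univ_inter, Real.volume_Ioc, sub_zero, mul_comm]
    _ = ∫⁻ g in dG F, (∫⁻ θ in Ioc 0 (2 * Real.pi), K (g * kM θ)) ∂mG := by
        refine (lintegral_lintegral_swap ?_).symm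
        exact (hK.comp hcm).aemeasurable
    _ ≤ ∫⁻ g in dG F, H g ∂mG := lintegral_mono fun g => hle g

theorem VEL_num {R ζ n1 n2 A B C : ℝ} (hζ0 : 0 < ζ) (hζ : ζ ≤ 1 / 8) (hR : 8 ≤ R) (hX : 4 ≤ R ^ ζ) (h1 : 0 ≤ n1) (h2 : 0 ≤ n2)
    (hA : A ≤ 4 * (R ^ (-(1 / 2) + ζ)) ^ 2 * n1) (hB : B ≤ 4 * (R ^ (-(1 / 2) + ζ)) ^ 2 * n2)
    (hC : C ≤ 4 * (R ^ (-(1 / 2) + ζ)) ^ 2 * (4 * R ^ 2 * n2 + (R ^ 2)⁻¹ * n1)) :
    R ^ (1 + ζ) * (R ^ (-4 : ℝ) * A + R ^ (-1 + 4 * ζ) * B + R ^ (-3 + 4 * ζ) * C) ≤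
      2 * Real.pi * (R ^ (8 * ζ) * (R ^ (-4 : ℝ) * n1 + R ^ (-1 : ℝ) * n2)) := by
  have hR0 : 0 < R := by linarith
  set X := R ^ ζ with hXd
  have hX0 : 0 < X := by linarith
  have e1 : (R ^ (-(1 / 2) + ζ)) ^ 2 = R⁻¹ * X ^ 2 := by
    rw [← Real.rpow_natCast, ← Real.rpow_mul hR0.le, hXd, ← Real.rpow_natCast, ← Real.rpow_mul hR0.le, ← Real.rpow_neg_one, ← Real.rpow_add hR0]
    congr 1
    push_cast
    ring
  have e2 : R ^ (1 + ζ) = R * X := by rw [Real.rpow_add hR0, Real.rpow_one]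
  have e3 : R ^ (4 * ζ) = X ^ 4 := by
    rw [hXd, ← Real.rpow_natCast, ← Real.rpow_mul hR0.le]
    congr 1
    push_cast
    ring
  have e4 : R ^ (8 * ζ) = X ^ 8 := by
    rw [hXd, ← Real.rpow_natCast, ← Real.rpow_mul hR0.le]
    congr 1
    push_cast
    ring
  have e5 : R ^ (-1 + 4 * ζ) = R⁻¹ * X ^ 4 := by rw [Real.rpow_add hR0, Real.rpow_neg_one, e3]
  have e6 : R ^ (-3 + 4 * ζ) = (R ^ 3)⁻¹ * X ^ 4 := by
    rw [Real.rpow_add hR0, e3, Real.rpow_neg hR0.le]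
    norm_num
  have e7 : R ^ (-4 : ℝ) = (R ^ 4)⁻¹ := by
    rw [Real.rpow_neg hR0.le]
    norm_num
  have e8 : R ^ (-1 : ℝ) = R⁻¹ := Real.rpow_neg_one R
  have hX4 : X ^ 4 ≤ R := by
    rw [← e3]
    calc R ^ (4 * ζ) ≤ R ^ (1 : ℝ) := Real.rpow_le_rpow_of_exponent_le (by linarith) (by linarith)
      _ = R := Real.rpow_one R
  rw [e1] at hA hB hC
  rw [e2, e4, e5, e6, e7, e8]
  have hpi := Real.pi_gt_three
  have k1 : (R ^ 4)⁻¹ * A ≤ (R ^ 4)⁻¹ * (4 * (R⁻¹ * X ^ 2) * n1) := mul_le_mul_of_nonneg_left hA (by positivity)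
  have k2 : R⁻¹ * X ^ 4 * B ≤ R⁻¹ * X ^ 4 * (4 * (R⁻¹ * X ^ 2) * n2) := mul_le_mul_of_nonneg_left hB (by positivity)
  have k3 : (R ^ 3)⁻¹ * X ^ 4 * C ≤ (R ^ 3)⁻¹ * X ^ 4 * (4 * (R⁻¹ * X ^ 2) * (4 * R ^ 2 * n2 + (R ^ 2)⁻¹ * n1)) :=
    mul_le_mul_of_nonneg_left hC (by positivity)
  have k4 : R * X * ((R ^ 4)⁻¹ * A + R⁻¹ * X ^ 4 * B + (R ^ 3)⁻¹ * X ^ 4 * C) ≤
      R * X * ((R ^ 4)⁻¹ * (4 * (R⁻¹ * X ^ 2) * n1) + R⁻¹ * X ^ 4 * (4 * (R⁻¹ * X ^ 2) * n2) +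
        (R ^ 3)⁻¹ * X ^ 4 * (4 * (R⁻¹ * X ^ 2) * (4 * R ^ 2 * n2 + (R ^ 2)⁻¹ * n1))) :=
    mul_le_mul_of_nonneg_left (by linarith) (by positivity)
  refine k4.trans ?_
  have k5 : R * X * ((R ^ 4)⁻¹ * (4 * (R⁻¹ * X ^ 2) * n1) + R⁻¹ * X ^ 4 * (4 * (R⁻¹ * X ^ 2) * n2) +
        (R ^ 3)⁻¹ * X ^ 4 * (4 * (R⁻¹ * X ^ 2) * (4 * R ^ 2 * n2 + (R ^ 2)⁻¹ * n1))) =
      4 * X ^ 3 * (((R ^ 4)⁻¹ * n1) * (1 + R⁻¹ * X ^ 4) + 5 * X ^ 4 * (R⁻¹ * n2)) := by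
    field_simp
    ring
  rw [k5]
  have k6 : R⁻¹ * X ^ 4 ≤ 1 := by
    rw [inv_mul_le_iff₀ hR0, mul_one]
    exact hX4
  set a := (R ^ 4)⁻¹ * n1 with ha
  set b := R⁻¹ * n2 with hb
  have ha0 : 0 ≤ a := by positivity
  have hb0 : 0 ≤ b := by positivity
  have hX4' : 1 ≤ X ^ 4 := one_le_pow₀ (by linarith)
  have k7 : a * (1 + R⁻¹ * X ^ 4) + 5 * X ^ 4 * b ≤ 5 * X ^ 4 * (a + b) := by
    have : a * (1 + R⁻¹ * X ^ 4) ≤ a * (5 * X ^ 4) := mul_le_mul_of_nonneg_left (by linarith) ha0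
    nlinarith
  have k8 : 4 * X ^ 3 * (a * (1 + R⁻¹ * X ^ 4) + 5 * X ^ 4 * b) ≤ 4 * X ^ 3 * (5 * X ^ 4 * (a + b)) :=
    mul_le_mul_of_nonneg_left k7 (by positivity)
  refine k8.trans ?_
  have k9 : 4 * X ^ 3 * (5 * X ^ 4 * (a + b)) = 20 * (X ^ 7 * (a + b)) := by ring
  have k10 : 2 * Real.pi * (X ^ 8 * (a + b)) = (2 * Real.pi * X) * (X ^ 7 * (a + b)) := by ring
  rw [k9, k10]
  refine mul_le_mul_of_nonneg_right ?_ (by positivity)
  nlinarith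

theorem VEL_ne {T : SL(2, ℝ) × ℂ → ℝ} {s : ℝ} {g : SL(2, ℝ)} (h : ∫ v in Metric.closedBall (0 : ℂ) s, T (g, v) ≠ 0) :
    ∃ v : ℂ, ‖v‖ ≤ s ∧ T (g, v) ≠ 0 := by
  by_contra hc
  apply h
  refine setIntegral_eq_zero_of_forall_eq_zero fun v hv => ?_
  by_contra hne
  exact hc ⟨v, by rwa [mem_closedBall_zero_iff] at hv, hne⟩

theorem VEL_dist (hVCD : VCD_stmt) (g : SL(2, ℝ)) {v : ℂ} (hv : ‖v‖ ≤ 1) : dist (g • cdi v : ℍ) (g • I) ≤ 2 * ‖v‖ := by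
  obtain ⟨-, h2, -, -, -, -, h7, -⟩ := hVCD
  have h3 : cd (cdi v) = v := (h2 v (by linarith)).1
  have h4 := h7 (cdi v) (by rw [h3]; exact hv)
  rw [h3] at h4
  rw [dist_smul]
  exact h4

theorem VEL_lapc {φ : ℍ → ℂ} (hφ : QU.CD 2 φ) : Continuous (QU.lap φ) ∧ ∀ z, QU.lap φ z ≠ 0 → z ∈ tsupport φ := by
  obtain ⟨c1, c2, -, -, c5, -, -, -, -, c10⟩ := QU.A_CA1 ℂ
  have e2 : (((1 : ℕ) : WithTop ℕ∞) + 1) = 2 := by norm_num
  have e1 : (((0 : ℕ) : WithTop ℕ∞) + 1) = 1 := by norm_num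
  have a1 := c5 φ 1 (by rw [e2]; exact hφ)
  have aX : QU.CD 1 (QU.dX φ) := by simpa using a1.1
  have aY : QU.CD 1 (QU.dY φ) := by simpa using a1.2
  have b1 := (c5 (QU.dX φ) 0 (by rw [e1]; exact aX)).1
  have b2 := (c5 (QU.dY φ) 0 (by rw [e1]; exact aY)).2
  have d1 : Continuous (QU.dX (QU.dX φ)) := (c1 _).mp (by simpa using b1)
  have d2 : Continuous (QU.dY (QU.dY φ)) := (c1 _).mp (by simpa using b2)
  have d3 : Continuous (QU.dY φ) := (c1 _).mp (c2 _ _ _ (zero_le_one) aY)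
  have hl : ∀ z, QU.lap φ z = -QU.dX (QU.dX φ) z - QU.dY (QU.dY φ) z + QU.dY φ z := fun z => (QU.A_CA2 ℂ φ hφ z).2
  refine ⟨?_, fun z hz => ?_⟩
  · rw [show QU.lap φ = fun z => -QU.dX (QU.dX φ) z - QU.dY (QU.dY φ) z + QU.dY φ z from funext hl]
    exact (d1.neg.sub d2).add d3
  · by_contra hc
    apply hz
    have g1 : QU.dY φ z = 0 := image_eq_zero_of_notMem_tsupport fun h => hc ((c10 φ).2 h)
    have g2 : QU.dX (QU.dX φ) z = 0 := image_eq_zero_of_notMem_tsupport fun h => hc ((c10 φ).1 ((c10 (QU.dX φ)).1 h))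
    have g3 : QU.dY (QU.dY φ) z = 0 := image_eq_zero_of_notMem_tsupport fun h => hc ((c10 φ).2 ((c10 (QU.dY φ)).2 h))
    rw [hl, g1, g2, g3]
    simp

theorem VEL_lapi (hVCD : VCD_stmt) (hVLP : VLP_stmt) {φ : ℍ → ℂ} (hφ : QU.CD 2 φ) (γ : SL(2, ℝ)) (hγ : ∀ z : ℍ, φ (γ • z) = φ z) (z : ℍ) :
    QU.lap φ (γ • z) = QU.lap φ z := by
  obtain ⟨h1, -⟩ := hVCD
  have hz := h1 z
  have e1 := (hVLP.1 φ γ (cd z) hφ hz.1).2
  have e2 := (hVLP.1 φ 1 (cd z) hφ hz.1).2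
  have e3 : (fun w : ℂ => φ (γ • cdi w)) = fun w : ℂ => φ ((1 : SL(2, ℝ)) • cdi w) := by
    funext w
    rw [hγ, one_smul]
  rw [e3] at e1
  rw [← e2, hz.2, one_smul] at e1
  exact e1

theorem VEL_proof (hVEG : VEG_stmt) (hVGD : VGD_stmt) (hVQS : VQS_stmt) (hVCD : VCD_stmt) (hVLP : VLP_stmt) : VEL_stmt := by
  intro ch ζ L hch hζ0 hζ
  obtain ⟨R1, hR1, h1⟩ := hVEG ch ζ L hch hζ0 hζ
  obtain ⟨R2, hR2, h2⟩ := hVQS ch ζ hch hζ0 hζ
  refine ⟨max (max R1 R2) (max 8 ((4 : ℝ) ^ (1 / ζ))), le_trans hR1 (le_trans (le_max_left _ _) (le_max_left _ _)), ?_⟩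
  intro R Γ F U φ E0 hR hDm hPU hL hE0 hFH hφ
  have hRa : R1 ≤ R := le_trans (le_trans (le_max_left _ _) (le_max_left _ _)) hR
  have hRb : R2 ≤ R := le_trans (le_trans (le_max_right _ _) (le_max_left _ _)) hR
  have hRc : 8 ≤ R := le_trans (le_trans (le_max_left _ _) (le_max_right _ _)) hR
  have hRd : (4 : ℝ) ^ (1 / ζ) ≤ R := le_trans (le_trans (le_max_right _ _) (le_max_right _ _)) hR
  have hR0 : 0 < R := by linarith
  have hX : 4 ≤ R ^ ζ := by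
    calc (4 : ℝ) = ((4 : ℝ) ^ (1 / ζ)) ^ ζ := by
          rw [← Real.rpow_mul (by norm_num), one_div_mul_cancel hζ0.ne', Real.rpow_one]
      _ ≤ R ^ ζ := Real.rpow_le_rpow (by positivity) hRd hζ0.le
  have hs0 : 0 < R ^ (-(1 / 2) + ζ) := Real.rpow_pos_of_pos hR0 _
  have hs1 : R ^ (-(1 / 2) + ζ) ≤ 1 / 2 := by
    calc R ^ (-(1 / 2) + ζ) ≤ R ^ (-(3 / 8) : ℝ) := Real.rpow_le_rpow_of_exponent_le (by linarith) (by linarith)
      _ ≤ 8 ^ (-(3 / 8) : ℝ) := Real.rpow_le_rpow_of_nonpos (by norm_num) hRc (by norm_num)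
      _ = 2 ^ (-(9 / 8) : ℝ) := by
          rw [show (8 : ℝ) = 2 ^ (3 : ℝ) by norm_num, ← Real.rpow_mul (by norm_num)]
          norm_num
      _ ≤ 2 ^ (-1 : ℝ) := Real.rpow_le_rpow_of_exponent_le (by norm_num) (by norm_num)
      _ = 1 / 2 := by norm_num
  set s := R ^ (-(1 / 2) + ζ) with hs
  have hFm : MeasurableSet F := by
    rcases hDm with ⟨hS, hN⟩ | ⟨rfl, rfl⟩
    · exact hN.meas
    · exact MeasurableSet.univ
  have hGMG : GMG_stmt := GMG GLC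
  have hdG : MeasurableSet (dG F) := (hGMG.1 F hFm).1
  have hkI : ∀ θ, kM θ • I = I := GLC.2.2.2.2.2.2.2.2.2.2.2.2.2.2.2.1
  -- bounded support
  obtain ⟨b, hb⟩ : ∃ b : ℝ, ∀ z ∈ F, (∃ w, dist w z ≤ 2 ∧ φ w ≠ 0) → dist z I ≤ b := by
    obtain ⟨b, hb⟩ := hFH.supp
    rcases hDm with ⟨hS, hN⟩ | ⟨rfl, rfl⟩
    · obtain ⟨K, hK, hFK⟩ := hN.rel
      obtain ⟨r, hr⟩ := hK.isBounded.subset_closedBall I
      exact ⟨r, fun z hz _ => hr (hFK hz)⟩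
    · refine ⟨2 + b, fun z _ hw => ?_⟩
      obtain ⟨w, hw1, hw2⟩ := hw
      have h3 := hb w (mem_univ _) hw2
      have h4 := dist_triangle z w I
      rw [dist_comm z w] at h4
      linarith
  obtain ⟨hlc, hls⟩ := VEL_lapc hφ
  set f1 : ℍ → ℂ := fun z => QU.lap φ z - ((R ^ 2 * (U z + 2 * E0) : ℝ) : ℂ) * φ z with hf1
  have hf1c : Continuous f1 := by
    refine hlc.sub (Continuous.mul ?_ hFH.cont)
    exact Complex.continuous_ofReal.comp (continuous_const.mul (hPU.inv.1.add continuous_const))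
  have hf1s : ∀ z, f1 z ≠ 0 → ∃ w, dist w z ≤ 1 ∧ φ w ≠ 0 := by
    intro z hz
    have hz' : z ∈ tsupport φ := by
      by_contra hc
      apply hz
      have g1 : φ z = 0 := image_eq_zero_of_notMem_tsupport hc
      have g2 : QU.lap φ z = 0 := by
        by_contra h
        exact hc (hls z h)
      show QU.lap φ z - _ * φ z = 0
      rw [g1, g2, mul_zero, sub_zero]
    obtain ⟨w, hw1, hw2⟩ := Metric.mem_closure_iff.mp hz' 1 one_pos
    exact ⟨w, by rw [dist_comm]; exact hw2.le, hw1⟩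
  have hf1F : FH Γ F f1 := by
    refine ⟨hf1c, fun γ z => ?_, ⟨b, fun z hz hne => ?_⟩⟩
    · show QU.lap φ (γ • z) - ((R ^ 2 * (U (γ • z) + 2 * E0) : ℝ) : ℂ) * φ (γ • z) = _
      rw [hFH.inv, hPU.inv.2]
      have := VEL_lapi hVCD hVLP hφ (γ : SL(2, ℝ)) (fun z => hFH.inv γ z) z
      rw [show (γ • z : ℍ) = (γ : SL(2, ℝ)) • z from rfl, this]
    · obtain ⟨w, hw1, hw2⟩ := hf1s z hne
      exact hb z hz ⟨w, by linarith, hw2⟩
  -- the integrands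
  have hcc := VEL_cc hVCD
  have hT1 : Continuous (fun x : SL(2, ℝ) × ℂ => ‖f1 (x.1 • cdi (VEL_r x.2))‖ ^ 2) := (hf1c.comp hcc).norm.pow 2
  have hT2 : Continuous (fun x : SL(2, ℝ) × ℂ => ‖φ (x.1 • cdi (VEL_r x.2))‖ ^ 2) := (hFH.cont.comp hcc).norm.pow 2
  have hT3 : Continuous (fun x : SL(2, ℝ) × ℂ => ‖fderiv ℝ (fun w : ℂ => φ (x.1 • cdi w)) (VEL_r x.2) 1‖ ^ 2 +
      ‖fderiv ℝ (fun w : ℂ => φ (x.1 • cdi w)) (VEL_r x.2) Complex.I‖ ^ 2) :=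
    (((VEL_dc hVCD hφ).clm_apply continuous_const).norm.pow 2).add (((VEL_dc hVCD hφ).clm_apply continuous_const).norm.pow 2)
  set T1 : SL(2, ℝ) × ℂ → ℝ := fun x => ‖f1 (x.1 • cdi (VEL_r x.2))‖ ^ 2 with hT1d
  set T2 : SL(2, ℝ) × ℂ → ℝ := fun x => ‖φ (x.1 • cdi (VEL_r x.2))‖ ^ 2 with hT2d
  set T3 : SL(2, ℝ) × ℂ → ℝ := fun x => ‖fderiv ℝ (fun w : ℂ => φ (x.1 • cdi w)) (VEL_r x.2) 1‖ ^ 2 +
      ‖fderiv ℝ (fun w : ℂ => φ (x.1 • cdi w)) (VEL_r x.2) Complex.I‖ ^ 2 with hT3d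
  have hre : ∀ v ∈ Metric.closedBall (0 : ℂ) s, VEL_r v = v := by
    intro v hv
    rw [mem_closedBall_zero_iff] at hv
    exact VEL_r_eq (by linarith)
  have hsm : MeasurableSet (Metric.closedBall (0 : ℂ) s) := Metric.isClosed_closedBall.measurableSet
  have hJ1 : IntegrableOn (fun g => ∫ v in Metric.closedBall (0 : ℂ) s, T1 (g, v)) (dG F) mG := by
    refine VEL_int hdG (VEL_J hT1 s) (b := b) fun g hg hne => ?_
    obtain ⟨v, hv, hv'⟩ := VEL_ne hne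
    have hv1 : VEL_r v = v := VEL_r_eq (by linarith)
    have hv2 : f1 (g • cdi v) ≠ 0 := by
      intro h0
      apply hv'
      show ‖f1 (g • cdi (VEL_r v))‖ ^ 2 = 0
      rw [hv1, h0]
      simp
    obtain ⟨w, hw1, hw2⟩ := hf1s _ hv2
    refine hb _ hg ⟨w, ?_, hw2⟩
    have h3 := dist_triangle w (g • cdi v : ℍ) (g • I)
    have h4 := VEL_dist hVCD g (v := v) (by linarith)
    linarith
  have hJ2 : IntegrableOn (fun g => ∫ v in Metric.closedBall (0 : ℂ) s, T2 (g, v)) (dG F) mG := by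
    refine VEL_int hdG (VEL_J hT2 s) (b := b) fun g hg hne => ?_
    obtain ⟨v, hv, hv'⟩ := VEL_ne hne
    have hv1 : VEL_r v = v := VEL_r_eq (by linarith)
    have hv2 : φ (g • cdi v) ≠ 0 := by
      intro h0
      apply hv'
      show ‖φ (g • cdi (VEL_r v))‖ ^ 2 = 0
      rw [hv1, h0]
      simp
    refine hb _ hg ⟨g • cdi v, ?_, hv2⟩
    have h4 := VEL_dist hVCD g (v := v) (by linarith)
    linarith
  have hJ3 : IntegrableOn (fun g => ∫ v in Metric.closedBall (0 : ℂ) s, T3 (g, v)) (dG F) mG := by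
    refine VEL_int hdG (VEL_J hT3 s) (b := b) fun g hg hne => ?_
    obtain ⟨v, hv, hv'⟩ := VEL_ne hne
    have hv1 : VEL_r v = v := VEL_r_eq (by linarith)
    have hv2 : ∃ w : ℂ, ‖w‖ ≤ 1 ∧ φ (g • cdi w) ≠ 0 := by
      by_contra hcon
      apply hv'
      have h5 : fderiv ℝ (fun w : ℂ => φ (g • cdi w)) v = 0 := by
        have h6 : (fun w : ℂ => φ (g • cdi w)) =ᶠ[𝓝 v] fun _ => (0 : ℂ) := by
          have h7 : Metric.ball (0 : ℂ) 1 ∈ 𝓝 v := Metric.isOpen_ball.mem_nhds (by rw [mem_ball_zero_iff]; linarith)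
          filter_upwards [h7] with w hw
          by_contra h8
          rw [mem_ball_zero_iff] at hw
          exact hcon ⟨w, hw.le, h8⟩
        rw [h6.fderiv_eq]
        simp
      show ‖fderiv ℝ (fun w : ℂ => φ (g • cdi w)) (VEL_r v) 1‖ ^ 2 + ‖fderiv ℝ (fun w : ℂ => φ (g • cdi w)) (VEL_r v) Complex.I‖ ^ 2 = 0
      rw [hv1, h5]
      simp
    obtain ⟨w, hw1, hw2⟩ := hv2
    refine hb _ hg ⟨g • cdi w, ?_, hw2⟩
    have h4 := VEL_dist hVCD g hw1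
    linarith
  -- the function `K`
  have hQc : Continuous (QF U ch ζ R φ) := ((h2 R Γ F U hRb hDm hPU).2.2.2.1 φ hFH).1
  have hK : Measurable (fun g : SL(2, ℝ) => ∫⁻ E in {E : ℝ | -(U (g • I) / 2) < E}, ENNReal.ofReal ((E - E0) ^ 2) * ‖QF U ch ζ R φ (g, E)‖ₑ ^ 2) := by
    have hUc : Continuous (fun g : SL(2, ℝ) => -(U (g • I) / 2)) :=
      ((hPU.inv.1.comp (continuous_id.smul continuous_const)).div_const 2).neg
    have hS : MeasurableSet {p : SL(2, ℝ) × ℝ | -(U (p.1 • I) / 2) < p.2} :=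
      measurableSet_lt (hUc.comp continuous_fst).measurable measurable_snd
    have hm : Measurable ({p : SL(2, ℝ) × ℝ | -(U (p.1 • I) / 2) < p.2}.indicator fun p => ENNReal.ofReal ((p.2 - E0) ^ 2) * ‖QF U ch ζ R φ p‖ₑ ^ 2) := by
      have m1 : Measurable fun p : SL(2, ℝ) × ℝ => ENNReal.ofReal ((p.2 - E0) ^ 2) :=
        ((measurable_snd.sub_const E0).pow_const 2).ennreal_ofReal
      have m2 : Measurable fun p : SL(2, ℝ) × ℝ => ‖QF U ch ζ R φ p‖ₑ ^ 2 := (hQc.measurable.enorm).pow_const 2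
      have m3 : Measurable fun p : SL(2, ℝ) × ℝ => ENNReal.ofReal ((p.2 - E0) ^ 2) * ‖QF U ch ζ R φ p‖ₑ ^ 2 := m1.mul m2
      exact m3.indicator hS
    have h3 := hm.lintegral_prod_right' (ν := (volume : Measure ℝ))
    have e : (fun g : SL(2, ℝ) => ∫⁻ E in {E : ℝ | -(U (g • I) / 2) < E}, ENNReal.ofReal ((E - E0) ^ 2) * ‖QF U ch ζ R φ (g, E)‖ₑ ^ 2) =
        fun g => ∫⁻ E, ({p : SL(2, ℝ) × ℝ | -(U (p.1 • I) / 2) < p.2}.indicator fun p => ENNReal.ofReal ((p.2 - E0) ^ 2) * ‖QF U ch ζ R φ p‖ₑ ^ 2) (g, E) := by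
      funext g
      have m4 : MeasurableSet {E : ℝ | -(U (g • I) / 2) < E} := measurableSet_lt measurable_const measurable_id
      rw [← lintegral_indicator m4]
      rfl
    rw [e]
    exact h3
  set K : SL(2, ℝ) → ENNReal := fun g => ∫⁻ E in {E : ℝ | -(U (g • I) / 2) < E}, ENNReal.ofReal ((E - E0) ^ 2) * ‖QF U ch ζ R φ (g, E)‖ₑ ^ 2 with hKd
  have hle : ∀ g : SL(2, ℝ), ∫⁻ θ in Ioc 0 (2 * Real.pi), K (g * kM θ) ≤ ENNReal.ofReal (R ^ (1 + ζ) *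
      (R ^ (-4 : ℝ) * (∫ v in Metric.closedBall (0 : ℂ) s, T1 (g, v)) + R ^ (-1 + 4 * ζ) * (∫ v in Metric.closedBall (0 : ℂ) s, T2 (g, v)) +
        R ^ (-3 + 4 * ζ) * (∫ v in Metric.closedBall (0 : ℂ) s, T3 (g, v)))) := by
    intro g
    have h3 := h1 R U φ g E0 hRa hφ hPU.inv.1 hPU.bd (hL g) hE0
    have e : ∀ θ : ℝ, K (g * kM θ) = ∫⁻ E in {E : ℝ | -(U (g • I) / 2) < E}, ENNReal.ofReal ((E - E0) ^ 2) * ‖QF U ch ζ R φ (g * kM θ, E)‖ₑ ^ 2 := by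
      intro θ
      show (∫⁻ E in {E : ℝ | -(U ((g * kM θ) • I) / 2) < E}, _) = _
      rw [mul_smul, hkI]
    simp_rw [e]
    refine h3.trans (le_of_eq ?_)
    congr 2
    have hi1 : IntegrableOn (fun v => T1 (g, v)) (Metric.closedBall (0 : ℂ) s) :=
      (hT1.comp (Continuous.prodMk_right g)).continuousOn.integrableOn_compact (isCompact_closedBall 0 s)
    have hi2 : IntegrableOn (fun v => T2 (g, v)) (Metric.closedBall (0 : ℂ) s) :=
      (hT2.comp (Continuous.prodMk_right g)).continuousOn.integrableOn_compact (isCompact_closedBall 0 s)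
    have hi3 : IntegrableOn (fun v => T3 (g, v)) (Metric.closedBall (0 : ℂ) s) :=
      (hT3.comp (Continuous.prodMk_right g)).continuousOn.integrableOn_compact (isCompact_closedBall 0 s)
    have hi12 : IntegrableOn (fun v => R ^ (-4 : ℝ) * T1 (g, v) + R ^ (-1 + 4 * ζ) * T2 (g, v)) (Metric.closedBall (0 : ℂ) s) :=
      (hi1.const_mul _).add (hi2.const_mul _)
    rw [← integral_const_mul, ← integral_const_mul, ← integral_const_mul,
      ← integral_add (hi1.const_mul _) (hi2.const_mul _), ← integral_add hi12 (hi3.const_mul _)]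
    refine setIntegral_congr_fun hsm fun v hv => ?_
    show _ = R ^ (-4 : ℝ) * ‖f1 (g • cdi (VEL_r v))‖ ^ 2 + R ^ (-1 + 4 * ζ) * ‖φ (g • cdi (VEL_r v))‖ ^ 2 +
      R ^ (-3 + 4 * ζ) * (‖fderiv ℝ (fun w : ℂ => φ (g • cdi w)) (VEL_r v) 1‖ ^ 2 + ‖fderiv ℝ (fun w : ℂ => φ (g • cdi w)) (VEL_r v) Complex.I‖ ^ 2)
    rw [hre v hv]
  have havg := VEL_avg hdG hK hle
  have hA : ∫ g in dG F, (∫ v in Metric.closedBall (0 : ℂ) s, T1 (g, v)) ∂mG ≤ 4 * s ^ 2 * nn F f1 := by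
    have h3 := (hVGD Γ F hDm).1 f1 s hf1F hs0 hs1
    refine le_trans (le_of_eq ?_) h3
    congr 1
    funext g
    exact setIntegral_congr_fun hsm fun v hv => by
      show ‖f1 (g • cdi (VEL_r v))‖ ^ 2 = _
      rw [hre v hv]
  have hB : ∫ g in dG F, (∫ v in Metric.closedBall (0 : ℂ) s, T2 (g, v)) ∂mG ≤ 4 * s ^ 2 * nn F φ := by
    have h3 := (hVGD Γ F hDm).1 φ s hFH hs0 hs1
    refine le_trans (le_of_eq ?_) h3
    congr 1
    funext g
    exact setIntegral_congr_fun hsm fun v hv => by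
      show ‖φ (g • cdi (VEL_r v))‖ ^ 2 = _
      rw [hre v hv]
  have hC : ∫ g in dG F, (∫ v in Metric.closedBall (0 : ℂ) s, T3 (g, v)) ∂mG ≤ 4 * s ^ 2 * (4 * R ^ 2 * nn F φ + (R ^ 2)⁻¹ * nn F f1) := by
    have h3 := (hVGD Γ F hDm).2 φ U s R E0 hFH hφ hPU hs0 hs1 (by linarith) hE0
    refine le_trans (le_of_eq ?_) h3
    congr 1
    funext g
    exact setIntegral_congr_fun hsm fun v hv => by
      show ‖fderiv ℝ (fun w : ℂ => φ (g • cdi w)) (VEL_r v) 1‖ ^ 2 + ‖fderiv ℝ (fun w : ℂ => φ (g • cdi w)) (VEL_r v) Complex.I‖ ^ 2 = _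
      rw [hre v hv]
  have hn1 : 0 ≤ nn F f1 := integral_nonneg fun z => by positivity
  have hn2 : 0 ≤ nn F φ := integral_nonneg fun z => by positivity
  have hnum := VEL_num hζ0 hζ hRc hX hn1 hn2 hA hB hC
  have hint : Integrable (fun g => R ^ (1 + ζ) *
      (R ^ (-4 : ℝ) * (∫ v in Metric.closedBall (0 : ℂ) s, T1 (g, v)) + R ^ (-1 + 4 * ζ) * (∫ v in Metric.closedBall (0 : ℂ) s, T2 (g, v)) +
        R ^ (-3 + 4 * ζ) * (∫ v in Metric.closedBall (0 : ℂ) s, T3 (g, v)))) (mG.restrict (dG F)) :=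
    (((hJ1.const_mul _).add (hJ2.const_mul _)).add (hJ3.const_mul _)).const_mul _
  have hint2 : ∫ g in dG F, R ^ (1 + ζ) *
      (R ^ (-4 : ℝ) * (∫ v in Metric.closedBall (0 : ℂ) s, T1 (g, v)) + R ^ (-1 + 4 * ζ) * (∫ v in Metric.closedBall (0 : ℂ) s, T2 (g, v)) +
        R ^ (-3 + 4 * ζ) * (∫ v in Metric.closedBall (0 : ℂ) s, T3 (g, v))) ∂mG = R ^ (1 + ζ) *
      (R ^ (-4 : ℝ) * (∫ g in dG F, (∫ v in Metric.closedBall (0 : ℂ) s, T1 (g, v)) ∂mG) + R ^ (-1 + 4 * ζ) * (∫ g in dG F, (∫ v in Metric.closedBall (0 : ℂ) s, T2 (g, v)) ∂mG) +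
        R ^ (-3 + 4 * ζ) * (∫ g in dG F, (∫ v in Metric.closedBall (0 : ℂ) s, T3 (g, v)) ∂mG)) := by
    have hJ12 : IntegrableOn (fun g => R ^ (-4 : ℝ) * (∫ v in Metric.closedBall (0 : ℂ) s, T1 (g, v)) + R ^ (-1 + 4 * ζ) * (∫ v in Metric.closedBall (0 : ℂ) s, T2 (g, v)))
      (dG F) mG := (hJ1.const_mul _).add (hJ2.const_mul _)
    rw [integral_const_mul, integral_add hJ12 (hJ3.const_mul _), integral_add (hJ1.const_mul _) (hJ2.const_mul _),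
      integral_const_mul, integral_const_mul, integral_const_mul]
  rw [← ofReal_integral_eq_lintegral_ofReal hint ?_, hint2] at havg
  swap
  · refine Filter.Eventually.of_forall fun g => ?_
    have p1 : 0 ≤ ∫ v in Metric.closedBall (0 : ℂ) s, T1 (g, v) := integral_nonneg fun v => by
      show 0 ≤ ‖f1 (g • cdi (VEL_r v))‖ ^ 2
      positivity
    have p2 : 0 ≤ ∫ v in Metric.closedBall (0 : ℂ) s, T2 (g, v) := integral_nonneg fun v => by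
      show 0 ≤ ‖φ (g • cdi (VEL_r v))‖ ^ 2
      positivity
    have p3 : 0 ≤ ∫ v in Metric.closedBall (0 : ℂ) s, T3 (g, v) := integral_nonneg fun v => by
      show 0 ≤ ‖fderiv ℝ (fun w : ℂ => φ (g • cdi w)) (VEL_r v) 1‖ ^ 2 + ‖fderiv ℝ (fun w : ℂ => φ (g • cdi w)) (VEL_r v) Complex.I‖ ^ 2
      positivity
    positivity
  have hfin : ENNReal.ofReal (2 * Real.pi) * ∫⁻ g in dG F, K g ∂mG ≤ ENNReal.ofReal (2 * Real.pi) *
      ENNReal.ofReal (R ^ (8 * ζ) * (R ^ (-4 : ℝ) * nn F f1 + R ^ (-1 : ℝ) * nn F φ)) := by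
    rw [← ENNReal.ofReal_mul (by positivity)]
    exact havg.trans (ENNReal.ofReal_le_ofReal hnum)
  have hpi0 : ENNReal.ofReal (2 * Real.pi) ≠ 0 := by
    rw [Ne, ENNReal.ofReal_eq_zero, not_le]
    positivity
  exact (ENNReal.mul_le_mul_iff_right hpi0 ENNReal.ofReal_ne_top).mp hfin

end

end Pool.Agent.VQ
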