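import Pool.Agent.helper80.VQ.SpecFL
import Pool.Agent.helper62.QU.All

/-!
# Row vq:FLD (MP_07c750_an): the speed of the flow
-/

set_option autoImplicit false

open scoped MatrixGroups ContDiff Topology UpperHalfPlane ComplexConjugate ENNReal
open UpperHalfPlane MeasureTheory Filter Set

namespace Pool.Agent.VQ

open Pool.Agent.RS
open Pool.Agent.VQE (nm)

noncomputable section

/-- the sum of the squares of the entries -/
def FLD_N (h : SL(2, ℝ)) : ℝ := h.1 0 0 ^ 2 + h.1 0 1 ^ 2 + (h.1 1 0 ^ 2 + h.1 1 1 ^ 2)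

theorem FLD_det (h : SL(2, ℝ)) : h.1 0 0 * h.1 1 1 - h.1 0 1 * h.1 1 0 = 1 := by
  have h1 := h.2
  rwa [Matrix.det_fin_two] at h1

theorem FLD_cosh (h : SL(2, ℝ)) : FLD_N h = 2 * Real.cosh (dist (h • I : ℍ) I) := by
  have h1 := (QU.A_TTT.1 (h • I : ℍ) I)
  have hdet := FLD_det h
  have hz : ((h • I : ℍ) : ℂ) = (((h.1 0 0 : ℝ) : ℂ) * Complex.I + ((h.1 0 1 : ℝ) : ℂ)) / (((h.1 1 0 : ℝ) : ℂ) * Complex.I + ((h.1 1 1 : ℝ) : ℂ)) := by
    rw [UpperHalfPlane.coe_specialLinearGroup_apply]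
    rfl
  have hq : 0 < h.1 1 0 ^ 2 + h.1 1 1 ^ 2 := by
    by_contra hc
    have h2 : h.1 1 0 = 0 := by nlinarith [sq_nonneg (h.1 1 0), sq_nonneg (h.1 1 1)]
    have h3 : h.1 1 1 = 0 := by nlinarith [sq_nonneg (h.1 1 0), sq_nonneg (h.1 1 1)]
    rw [h2, h3] at hdet
    norm_num at hdet
  have hn : Complex.normSq (((h.1 1 0 : ℝ) : ℂ) * Complex.I + ((h.1 1 1 : ℝ) : ℂ)) = h.1 1 0 ^ 2 + h.1 1 1 ^ 2 := by
    rw [Complex.normSq_apply]
    simp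
    ring
  have him : (h • I : ℍ).im = (h.1 1 0 ^ 2 + h.1 1 1 ^ 2)⁻¹ := by
    have h2 : (h • I : ℍ).im = ((h • I : ℍ) : ℂ).im := rfl
    rw [h2, hz, Complex.div_im, hn]
    simp
    field_simp
    linarith
  have hre : ((h • I : ℍ) : ℂ).re = (h.1 0 1 * h.1 1 1 + h.1 0 0 * h.1 1 0) * (h.1 1 0 ^ 2 + h.1 1 1 ^ 2)⁻¹ := by
    rw [hz, Complex.div_re, hn]
    simp
    field_simp
  have h3 : ‖((h • I : ℍ) : ℂ) - ((I : ℍ) : ℂ)‖ ^ 2 = ((h • I : ℍ) : ℂ).re ^ 2 + ((h • I : ℍ).im - 1) ^ 2 := by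
    rw [← Complex.normSq_eq_norm_sq, Complex.normSq_apply]
    simp only [Complex.sub_re, Complex.sub_im, UpperHalfPlane.coe_I, Complex.I_re, Complex.I_im, sub_zero]
    have h2 : ((h • I : ℍ) : ℂ).im = (h • I : ℍ).im := rfl
    rw [h2]
    ring
  have h4 : QU.tt (h • I : ℍ) I = ‖((h • I : ℍ) : ℂ) - ((I : ℍ) : ℂ)‖ ^ 2 / (2 * (h • I : ℍ).im * (I : ℍ).im) := rfl
  have h5 : (I : ℍ).im = 1 := UpperHalfPlane.I_im
  rw [h4, h3, h5, hre, him] at h1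
  have h6 : Real.cosh (dist (h • I : ℍ) I) = 1 + (((h.1 0 1 * h.1 1 1 + h.1 0 0 * h.1 1 0) * (h.1 1 0 ^ 2 + h.1 1 1 ^ 2)⁻¹) ^ 2 + ((h.1 1 0 ^ 2 + h.1 1 1 ^ 2)⁻¹ - 1) ^ 2) /
      (2 * (h.1 1 0 ^ 2 + h.1 1 1 ^ 2)⁻¹ * 1) := by linarith
  rw [h6]
  unfold FLD_N
  set a := h.1 0 0
  set b := h.1 0 1
  set c := h.1 1 0
  set d := h.1 1 1
  have e1 : (b * d + a * c) ^ 2 + 1 = (a ^ 2 + b ^ 2) * (c ^ 2 + d ^ 2) := by
    have : (1 : ℝ) = (a * d - b * c) ^ 2 := by rw [hdet]; norm_num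
    rw [this]
    ring
  field_simp
  linear_combination (-1 : ℝ) * e1

theorem FLD_XX (U : ℍ → ℝ) (E : ℝ) (g : SL(2, ℝ)) : XX U E g 0 0 = rho U E g / 2 ∧ XX U E g 0 1 = kap U E g / 2 ∧ XX U E g 1 0 = -(kap U E g / 2) ∧
    XX U E g 1 1 = -(rho U E g / 2) := by
  unfold XX A0 K0
  refine ⟨?_, ?_, ?_, ?_⟩ <;> simp <;> ring

theorem FLD_proof (hVUG : VUG_stmt) : FLD_stmt := by
  intro Γ e B D hD E t g hE
  obtain ⟨-, hrho, -⟩ := hVUG Γ e B D.U hD.pot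
  set c := Real.sqrt (B 0 + 2 * e) with hc
  have hc0 : 0 ≤ c := Real.sqrt_nonneg _
  set h : ℝ → SL(2, ℝ) := fun s => g⁻¹ * D.fl E s g with hh
  -- the derivative of the entries
  have hd : ∀ s i j, HasDerivAt (fun s => (h s).1 i j) (((h s).1 * XX D.U E (D.fl E s g)) i j) s := by
    intro s i j
    have e1 : ∀ r, (h r).1 i j = (g⁻¹).1 i 0 * (D.fl E r g).1 0 j + (g⁻¹).1 i 1 * (D.fl E r g).1 1 j := by
      intro r
      show ((g⁻¹ * D.fl E r g : SL(2, ℝ)) : Matrix (Fin 2) (Fin 2) ℝ) i j = _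
      rw [Matrix.SpecialLinearGroup.coe_mul, Matrix.mul_apply, Fin.sum_univ_two]
    have e2 : ((h s).1 * XX D.U E (D.fl E s g)) i j = (g⁻¹).1 i 0 * ((D.fl E s g).1 * XX D.U E (D.fl E s g)) 0 j + (g⁻¹).1 i 1 * ((D.fl E s g).1 * XX D.U E (D.fl E s g)) 1 j := by
      have e3 : (h s).1 = (g⁻¹).1 * (D.fl E s g).1 := Matrix.SpecialLinearGroup.coe_mul _ _
      rw [e3, Matrix.mul_assoc, Matrix.mul_apply, Fin.sum_univ_two]
    rw [e2, show (fun s => (h s).1 i j) = fun r => (g⁻¹).1 i 0 * (D.fl E r g).1 0 j + (g⁻¹).1 i 1 * (D.fl E r g).1 1 j from funext e1]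
    exact ((hD.dfl E s g hE 0 j).const_mul _).add ((hD.dfl E s g hE 1 j).const_mul _)
  have hN : ∀ s, HasDerivAt (fun s => FLD_N (h s)) (rho D.U E (D.fl E s g) * ((h s).1 0 0 ^ 2 + (h s).1 1 0 ^ 2 - ((h s).1 0 1 ^ 2 + (h s).1 1 1 ^ 2))) s := by
    intro s
    obtain ⟨x1, x2, x3, x4⟩ := FLD_XX D.U E (D.fl E s g)
    have k00 := hd s 0 0
    have k01 := hd s 0 1
    have k10 := hd s 1 0
    have k11 := hd s 1 1
    rw [Matrix.mul_apply, Fin.sum_univ_two, x1, x3] at k00 k10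
    rw [Matrix.mul_apply, Fin.sum_univ_two, x2, x4] at k01 k11
    have k := ((k00.pow 2).add (k01.pow 2)).add ((k10.pow 2).add (k11.pow 2))
    refine k.congr_deriv ?_
    simp only [Nat.cast_ofNat, Nat.add_one_sub_one, pow_one]
    ring
  have hge : ∀ s, 2 ≤ FLD_N (h s) := by
    intro s
    rw [FLD_cosh]
    have := Real.one_le_cosh (dist (h s • I : ℍ) I)
    linarith
  have hN0 : FLD_N (h 0) = 2 := by
    have e1 : h 0 = 1 := by
      show g⁻¹ * D.fl E 0 g = 1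
      rw [hD.fl0, inv_mul_cancel]
    rw [e1]
    unfold FLD_N
    simp
    norm_num
  have hdist : dist (D.fl E t g • I : ℍ) (g • I) = dist (h t • I : ℍ) I := by
    have e1 : (h t • I : ℍ) = g⁻¹ • (D.fl E t g • I : ℍ) := mul_smul _ _ _
    have e2 : (I : ℍ) = g⁻¹ • (g • I : ℍ) := (inv_smul_smul g I).symm
    rw [e1]
    conv_rhs => rw [e2]
    rw [inv_smul_smul]
    have e3 := dist_smul g⁻¹ (D.fl E t g • I : ℍ) (g • I)
    rw [inv_smul_smul] at e3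
    exact e3.symm
  rw [hdist]
  refine le_of_forall_pos_le_add fun δ hδ => ?_
  -- the smoothed distance
  have hpos : ∀ s, 0 < FLD_N (h s) ^ 2 - 4 + (2 * δ) ^ 2 := by
    intro s
    have h1 := hge s
    have : 0 < (2 * δ) ^ 2 := by positivity
    nlinarith
  have hF : ∀ s, HasDerivAt (fun s => Real.log (FLD_N (h s) + Real.sqrt (FLD_N (h s) ^ 2 - 4 + (2 * δ) ^ 2)))
      (rho D.U E (D.fl E s g) * ((h s).1 0 0 ^ 2 + (h s).1 1 0 ^ 2 - ((h s).1 0 1 ^ 2 + (h s).1 1 1 ^ 2)) / Real.sqrt (FLD_N (h s) ^ 2 - 4 + (2 * δ) ^ 2)) s := by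
    intro s
    have hs := hpos s
    have hM : 0 < Real.sqrt (FLD_N (h s) ^ 2 - 4 + (2 * δ) ^ 2) := Real.sqrt_pos.mpr hs
    have k1 := (((hN s).pow 2).sub_const 4).add_const ((2 * δ) ^ 2)
    have k2 := k1.sqrt hs.ne'
    have k3 := (hN s).add k2
    have k4 : 0 < FLD_N (h s) + Real.sqrt (FLD_N (h s) ^ 2 - 4 + (2 * δ) ^ 2) := by linarith [hge s]
    have k5 := k3.log k4.ne'
    refine k5.congr_deriv ?_
    simp only [Nat.cast_ofNat, Nat.add_one_sub_one, pow_one, Pi.pow_apply, Pi.add_apply]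
    generalize rho D.U E (D.fl E s g) * ((h s).1 0 0 ^ 2 + (h s).1 1 0 ^ 2 - ((h s).1 0 1 ^ 2 + (h s).1 1 1 ^ 2)) = Z
    generalize Real.sqrt (FLD_N (h s) ^ 2 - 4 + (2 * δ) ^ 2) = M at hM k4 ⊢
    generalize FLD_N (h s) = N at k4 ⊢
    have k4' := k4.ne'
    field_simp
    ring
  have hbound : ∀ s, ‖rho D.U E (D.fl E s g) * ((h s).1 0 0 ^ 2 + (h s).1 1 0 ^ 2 - ((h s).1 0 1 ^ 2 + (h s).1 1 1 ^ 2)) / Real.sqrt (FLD_N (h s) ^ 2 - 4 + (2 * δ) ^ 2)‖ ≤ c := by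
    intro s
    have hs := hpos s
    have hM : 0 < Real.sqrt (FLD_N (h s) ^ 2 - 4 + (2 * δ) ^ 2) := Real.sqrt_pos.mpr hs
    obtain ⟨r1, -, -, r4, -⟩ := hrho E (D.fl E s g) hE
    have r5 : rho D.U E (D.fl E s g) ≤ c := Real.le_sqrt_of_sq_le r4
    rw [norm_div, norm_mul, Real.norm_of_nonneg hM.le, Real.norm_of_nonneg r1.le, div_le_iff₀ hM]
    refine mul_le_mul r5 ?_ (norm_nonneg _) hc0
    rw [Real.norm_eq_abs]
    refine Real.abs_le_sqrt ?_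
    have hdet := FLD_det (h s)
    unfold FLD_N
    set x := (h s).1 0 0
    set y := (h s).1 0 1
    set u := (h s).1 1 0
    set v := (h s).1 1 1
    have e1 : (x ^ 2 + u ^ 2) * (y ^ 2 + v ^ 2) = (x * v - y * u) ^ 2 + (x * y + u * v) ^ 2 := by ring
    rw [hdet] at e1
    have e2 : (x ^ 2 + y ^ 2 + (u ^ 2 + v ^ 2)) ^ 2 - (x ^ 2 + u ^ 2 - (y ^ 2 + v ^ 2)) ^ 2 = 4 * ((x ^ 2 + u ^ 2) * (y ^ 2 + v ^ 2)) := by ring
    have e3 : 0 ≤ (x * y + u * v) ^ 2 := sq_nonneg _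
    have e4 : 0 ≤ (2 * δ) ^ 2 := sq_nonneg _
    linarith
  have hmv := Convex.norm_image_sub_le_of_norm_hasDerivWithin_le (s := (univ : Set ℝ)) (fun s _ => (hF s).hasDerivWithinAt) (fun s _ => hbound s) convex_univ (mem_univ 0) (mem_univ t)
  have h0 : Real.log (FLD_N (h 0) + Real.sqrt (FLD_N (h 0) ^ 2 - 4 + (2 * δ) ^ 2)) ≤ Real.log 2 + δ := by
    rw [hN0]
    have e1 : (2 : ℝ) ^ 2 - 4 + (2 * δ) ^ 2 = (2 * δ) ^ 2 := by ring
    rw [e1, Real.sqrt_sq (by positivity)]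
    have e2 : (2 : ℝ) + 2 * δ = 2 * (1 + δ) := by ring
    rw [e2, Real.log_mul (by norm_num) (by positivity)]
    have e3 : Real.log (1 + δ) ≤ (1 + δ) - 1 := Real.log_le_sub_one_of_pos (by positivity)
    linarith
  have h1 : Real.log 2 + dist (h t • I : ℍ) I ≤ Real.log (FLD_N (h t) + Real.sqrt (FLD_N (h t) ^ 2 - 4 + (2 * δ) ^ 2)) := by
    set d := dist (h t • I : ℍ) I with hdd
    have hd0 : 0 ≤ d := dist_nonneg
    have e1 : FLD_N (h t) = 2 * Real.cosh d := FLD_cosh (h t)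
    have e2 : 2 * Real.sinh d ≤ Real.sqrt (FLD_N (h t) ^ 2 - 4 + (2 * δ) ^ 2) := by
      refine Real.le_sqrt_of_sq_le ?_
      rw [e1]
      have e3 := Real.cosh_sq d
      have e4 : 0 ≤ (2 * δ) ^ 2 := sq_nonneg _
      nlinarith
    have e5 : 2 * Real.exp d ≤ FLD_N (h t) + Real.sqrt (FLD_N (h t) ^ 2 - 4 + (2 * δ) ^ 2) := by
      have e6 : Real.exp d = Real.cosh d + Real.sinh d := (Real.cosh_add_sinh d).symm
      rw [e6]
      linarith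
    calc Real.log 2 + d = Real.log (2 * Real.exp d) := by
          rw [Real.log_mul (by norm_num) (Real.exp_pos d).ne', Real.log_exp]
      _ ≤ _ := Real.log_le_log (by positivity) e5
  rw [Real.norm_eq_abs, Real.norm_eq_abs, sub_zero] at hmv
  have h2 := le_abs_self (Real.log (FLD_N (h t) + Real.sqrt (FLD_N (h t) ^ 2 - 4 + (2 * δ) ^ 2)) -
    Real.log (FLD_N (h 0) + Real.sqrt (FLD_N (h 0) ^ 2 - 4 + (2 * δ) ^ 2)))
  linarith

end

end Pool.Agent.VQ
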