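import Pool.Agent.helper93.VQ.Spec4c

/-!
# Row vq:RWI (MP_07c750_an): windows with a large average
-/

set_option autoImplicit false

open scoped MatrixGroups ContDiff Topology UpperHalfPlane ComplexConjugate ENNReal
open UpperHalfPlane MeasureTheory Filter Set

namespace Pool.Agent.VQ

open Pool.Agent.RS
open Pool.Agent.VQE (nm)

theorem RWI_proof : RWI_stmt := by
  classical
  intro φ e T0 τ n hφ hb he hT h1 h2 h3 h4
  have hint : ∀ a b : ℝ, IntervalIntegrable φ volume a b := fun a b => hφ.intervalIntegrable a b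
  have hbd : ∀ a b : ℝ, a ≤ b → |∫ t in a..b, φ t| ≤ b - a := by
    intro a b hab
    have h := intervalIntegral.norm_integral_le_of_norm_le_const (a := a) (b := b) (C := 1) (f := φ) (fun x _ => hb x)
    rw [Real.norm_eq_abs, one_mul, abs_of_nonneg (show (0 : ℝ) ≤ b - a by linarith)] at h
    exact h
  have hsum : ∑ k ∈ Finset.range n, (∫ t in ((k : ℝ) * T0)..(((k : ℝ) + 1) * T0), φ t) = ∫ t in (0 : ℝ)..(n * T0), φ t := by
    have h := intervalIntegral.sum_integral_adjacent_intervals (f := φ) (μ := volume) (a := fun k : ℕ => (k : ℝ) * T0) (n := n)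
      (fun k _ => hint _ _)
    simp only [Nat.cast_add, Nat.cast_one, Nat.cast_zero, zero_mul] at h
    exact h
  have hIk : ∀ k : ℕ, |∫ t in ((k : ℝ) * T0)..(((k : ℝ) + 1) * T0), φ t| ≤ T0 := fun k => by
    have h := hbd ((k : ℝ) * T0) (((k : ℝ) + 1) * T0) (by nlinarith)
    have e1 : ((k : ℝ) + 1) * T0 - (k : ℝ) * T0 = T0 := by ring
    rw [e1] at h
    exact h
  have hsplit : ∫ t in (0 : ℝ)..τ, φ t = ∑ k ∈ Finset.range n, (∫ t in ((k : ℝ) * T0)..(((k : ℝ) + 1) * T0), φ t) + ∫ t in ((n : ℝ) * T0)..τ, φ t := by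
    rw [hsum, intervalIntegral.integral_add_adjacent_intervals (hint _ _) (hint _ _)]
  have hlast := hbd (n * T0) τ h1
  set S := (Finset.range n).filter fun k : ℕ => 3 / 4 * e * T0 ≤ |∫ t in (k * T0)..((k + 1) * T0), φ t| with hS
  have h5 : ∑ k ∈ Finset.range n, |∫ t in ((k : ℝ) * T0)..(((k : ℝ) + 1) * T0), φ t| ≤ (S.card : ℝ) * T0 + n * (3 / 4 * e * T0) := by
    have h6 : ∀ k ∈ Finset.range n, |∫ t in ((k : ℝ) * T0)..(((k : ℝ) + 1) * T0), φ t| ≤
        (if 3 / 4 * e * T0 ≤ |∫ t in ((k : ℝ) * T0)..(((k : ℝ) + 1) * T0), φ t| then T0 else 0) + 3 / 4 * e * T0 := by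
      intro k _
      split_ifs with hk
      · have := hIk k
        have : 0 < 3 / 4 * e * T0 := by positivity
        linarith
      · rw [not_le] at hk
        linarith
    refine (Finset.sum_le_sum h6).trans (le_of_eq ?_)
    rw [Finset.sum_add_distrib, ← Finset.sum_filter, Finset.sum_const, Finset.sum_const, nsmul_eq_mul, nsmul_eq_mul, Finset.card_range]
  have h7 : e * τ ≤ (S.card : ℝ) * T0 + n * (3 / 4 * e * T0) + T0 := by
    refine h4.trans ?_
    rw [hsplit]
    refine (abs_add_le _ _).trans ?_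
    have h8 := Finset.abs_sum_le_sum_abs (fun k : ℕ => ∫ t in ((k : ℝ) * T0)..(((k : ℝ) + 1) * T0), φ t) (Finset.range n)
    have h9 : τ - n * T0 ≤ T0 := by
      have : ((n : ℝ) + 1) * T0 = n * T0 + T0 := by ring
      linarith
    linarith
  have h10 : e * (n * T0) ≤ e * τ := mul_le_mul_of_nonneg_left h1 he.le
  have h11 : e * n / 4 * T0 ≤ ((S.card : ℝ) + 1) * T0 := by
    have e1 : e * (n * T0) = e * n / 4 * T0 + n * (3 / 4 * e * T0) := by ring
    have e2 : ((S.card : ℝ) + 1) * T0 = (S.card : ℝ) * T0 + T0 := by ring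
    linarith
  have h12 : e * n / 4 ≤ (S.card : ℝ) + 1 := le_of_mul_le_mul_right h11 hT
  have e3 : e / 8 * n = e * n / 8 := by ring
  rw [e3]
  linarith

end Pool.Agent.VQ
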